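import Pool.Agent.Q143.GG.Cov

/-!
# The finite Goldbach graphs: almost all vertices lie in boundedly many balls of radius four

`G_n` has the vertices `0, 2, …, 2n`, two distinct vertices `a`, `b` being adjacent if `(a + b) / 2` and
`|a - b| / 2` are odd primes `< 2n`; `G(n)` has the vertices `2, 4, …, 2n`, and for each of the two numbers the
value `1` is also allowed.

There are absolute constants `K` and `c > 0` such that for every `A` and all large `n`, in `G_n` as well as in
`G(n)`, all vertices but at most `n / (log n) ^ A` have at least `c n` vertices within distance `2`, and all of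
them lie in the union of at most `K` balls of radius `4`. So these vertices form at most `K` classes such that
the distance between vertices of one class is at most `8`, and each of their components has at least `c n`
vertices. Moreover at least `c n` vertices of `G_n` are within distance `3` of the vertex `0`.
-/

set_option autoImplicit false

open Finset

namespace Pool.Agent.Results.MP_443e5f_co.BoundedlyManyBalls

/-- `m` is an odd prime smaller than `2 n` -/
def OddPrimeBelow (n m : ℕ) : Prop := m.Prime ∧ Odd m ∧ m < 2 * n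

/-- the finite Goldbach graph `G_n` on `{0, 2, …, 2n}` -/
def goldbach (n : ℕ) : SimpleGraph {a : ℕ // Even a ∧ a ≤ 2 * n} where
  Adj a b := a ≠ b ∧ OddPrimeBelow n ((a.1 + b.1) / 2) ∧ OddPrimeBelow n (Nat.dist a.1 b.1 / 2)
  symm := ⟨by
    rintro a b ⟨h1, h2, h3⟩
    refine ⟨h1.symm, ?_, ?_⟩
    · rw [add_comm]; exact h2
    · rw [Nat.dist_comm]; exact h3⟩
  loopless := ⟨fun _ h => h.1 rfl⟩

/-- the finite near Goldbach graph `G(n)` on `{2, 4, …, 2n}` -/
def nearGoldbach (n : ℕ) : SimpleGraph {a : ℕ // Even a ∧ 2 ≤ a ∧ a ≤ 2 * n} where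
  Adj a b := a ≠ b ∧ ((a.1 + b.1) / 2 = 1 ∨ OddPrimeBelow n ((a.1 + b.1) / 2)) ∧
    (Nat.dist a.1 b.1 / 2 = 1 ∨ OddPrimeBelow n (Nat.dist a.1 b.1 / 2))
  symm := ⟨by
    rintro a b ⟨h1, h2, h3⟩
    refine ⟨h1.symm, ?_, ?_⟩
    · rw [add_comm]; exact h2
    · rw [Nat.dist_comm]; exact h3⟩
  loopless := ⟨fun _ h => h.1 rfl⟩

/-- the vertex `0` of `G_n` -/
def origin (n : ℕ) : {a : ℕ // Even a ∧ a ≤ 2 * n} := ⟨0, by simp⟩

/-- there is a walk of length at most `r` from `u` to `v` -/
def Within {V : Type} (G : SimpleGraph V) (r : ℕ) (u v : V) : Prop := ∃ p : G.Walk u v, p.length ≤ r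

/-- the number of vertices within distance `r` of `u` -/
noncomputable def ball {V : Type} (G : SimpleGraph V) (r : ℕ) (u : V) : ℕ := Nat.card {v : V // Within G r u v}

/-- All vertices outside a set `E` of at most `e` vertices have at least `m` vertices within distance `2`, and
are within distance `4` of one of at most `K` vertices. -/
def FewBalls {V : Type} (G : SimpleGraph V) (K : ℕ) (m e : ℝ) : Prop :=
  ∃ E T : Finset V, (E.card : ℝ) ≤ e ∧ T.card ≤ K ∧ ∀ v : V, v ∉ E → m ≤ ball G 2 v ∧ ∃ t ∈ T, Within G 4 t v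

open Pool.Agent.Q143.GG

lemma odd_of (x y n : ℕ) (hx : 1 ≤ x) (hy : 1 ≤ y) (hxn : x ≤ n) (hyn : y ≤ n) (h : R x y) :
    2 * x ≠ 2 * y ∧ OddPrimeBelow n ((2 * x + 2 * y) / 2) ∧ OddPrimeBelow n (Nat.dist (2 * x) (2 * y) / 2) := by
  obtain ⟨h1, h2⟩ := h
  have e1 : (2 * x + 2 * y) / 2 = x + y := by omega
  have e2 : Nat.dist (2 * x) (2 * y) / 2 = Nat.dist x y := by unfold Nat.dist; omega
  have hd := h2.two_le
  have hd' : 2 ≤ x - y + (y - x) := hd
  have hne : x ≠ y := by omega
  have hodd1 : Odd (x + y) := by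
    rcases h1.eq_two_or_odd' with h | h
    · omega
    · exact h
  have hodd2 : Odd (Nat.dist x y) := by
    unfold Nat.dist
    rw [Nat.odd_iff] at hodd1 ⊢
    omega
  rw [e1, e2]
  refine ⟨by omega, ⟨h1, hodd1, by omega⟩, h2, hodd2, ?_⟩
  unfold Nat.dist
  omega

section
variable {V : Type} (G : SimpleGraph V)

lemma Within.symm {r : ℕ} {u v : V} (h : Within G r u v) : Within G r v u := by
  obtain ⟨p, hp⟩ := h
  exact ⟨p.reverse, by rw [SimpleGraph.Walk.length_reverse]; exact hp⟩

lemma Within.trans {r s : ℕ} {u v w : V} (h : Within G r u v) (h' : Within G s v w) : Within G (r + s) u w := by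
  obtain ⟨p, hp⟩ := h
  obtain ⟨q, hq⟩ := h'
  exact ⟨p.append q, by rw [SimpleGraph.Walk.length_append]; omega⟩

lemma Within.one {u v : V} (h : G.Adj u v) : Within G 1 u v := ⟨h.toWalk, by simp⟩

/-- transfer from the integers `1, …, n` to a graph -/
lemma transfer [Finite V] [DecidableEq V] (n K : ℕ) (f : ℕ → V) (hinj : ∀ x ∈ Icc 1 n, ∀ y ∈ Icc 1 n, f x = f y → x = y)
    (hadj : ∀ x ∈ Icc 1 n, ∀ y ∈ Icc 1 n, R x y → G.Adj (f x) (f y)) (m e : ℝ)
    (E T : Finset ℕ) (hT : T ⊆ Icc 1 n) (hTc : T.card ≤ K)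
    (h : ∀ x ∈ Icc 1 n, x ∉ E → m ≤ (N2 n x).card ∧ ∃ t ∈ T, (N2 n x ∩ N2 n t).Nonempty)
    (E' : Finset V) (hE' : (E'.card : ℝ) ≤ e) (hcov : ∀ v : V, v ∉ E' → ∃ x ∈ Icc 1 n, x ∉ E ∧ f x = v) :
    FewBalls G K m e := by
  have two : ∀ x ∈ Icc 1 n, ∀ x' ∈ N2 n x, Within G 2 (f x) (f x') := by
    intro x hx x' hx'
    unfold N2 at hx'
    rw [mem_filter, card_pos] at hx'
    obtain ⟨hx'1, y, hy⟩ := hx'
    unfold Cd at hy
    rw [mem_filter] at hy
    exact Within.trans G (Within.one G (hadj x hx y hy.1 hy.2.1))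
      (Within.one G (hadj y hy.1 x' hx'1 (R_symm hy.2.2)))
  refine ⟨E', T.image f, hE', card_image_le.trans hTc, fun v hv => ?_⟩
  obtain ⟨x, hx, hxE, rfl⟩ := hcov v hv
  obtain ⟨h1, t, ht, w, hw⟩ := h x hx hxE
  constructor
  · refine h1.trans ?_
    have h2 : (N2 n x).card ≤ ball G 2 (f x) := by
      unfold ball
      have hN : Nat.card (N2 n x : Set ℕ) = (N2 n x).card := by rw [Nat.card_coe_set_eq, Set.ncard_coe_finset]
      rw [← hN]
      apply Nat.card_le_card_of_injective (fun x' : (N2 n x : Set ℕ) => (⟨f x'.1, two x hx x'.1 x'.2⟩ : {v : V // Within G 2 (f x) v}))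
      rintro ⟨a, ha⟩ ⟨b, hb⟩ hab
      have hab' : f a = f b := congrArg Subtype.val hab
      have ha1 := (mem_filter.1 ha).1
      have hb1 := (mem_filter.1 hb).1
      exact Subtype.ext (hinj a ha1 b hb1 hab')
    exact_mod_cast h2
  · rw [mem_inter] at hw
    refine ⟨f t, mem_image_of_mem f ht, ?_⟩
    exact Within.trans G (two t (hT ht) w hw.2) (Within.symm G (two x hx w hw.1))

end

instance (n : ℕ) : Finite {a : ℕ // Even a ∧ a ≤ 2 * n} :=
  Finite.of_injective (fun a => (⟨a.1, by have := a.2.2; omega⟩ : Fin (2 * n + 1)))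
    (fun a b h => Subtype.ext (by simpa using h))

instance (n : ℕ) : Finite {a : ℕ // Even a ∧ 2 ≤ a ∧ a ≤ 2 * n} :=
  Finite.of_injective (fun a => (⟨a.1, by have := a.2.2.2; omega⟩ : Fin (2 * n + 1)))
    (fun a b h => Subtype.ext (by simpa using h))

theorem result : ∃ c : ℝ, 0 < c ∧
    -- almost all vertices lie in boundedly many balls of radius four, and have large balls of radius two
    (∃ K : ℕ, ∀ A : ℕ, ∃ N : ℕ, ∀ n : ℕ, N ≤ n →
      FewBalls (goldbach n) K (c * n) (n / Real.log n ^ A) ∧
      FewBalls (nearGoldbach n) K (c * n) (n / Real.log n ^ A)) ∧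
    -- the ball of radius three about the vertex `0` of `G_n` contains a positive proportion of the vertices
    (∃ N : ℕ, ∀ n : ℕ, N ≤ n → c * n ≤ ball (goldbach n) 3 (origin n)) := by
  classical
  obtain ⟨c, hc, K, h⟩ := covering
  refine ⟨c, hc, ⟨K, fun A => ?_⟩, ?_⟩
  · obtain ⟨N, h0⟩ := h A
    refine ⟨N + 1, fun n hn => ?_⟩
    obtain ⟨E, hE, T, hT, hEc, hTc, hp, _⟩ := h0 n (by omega)
    constructor
    · set f : ℕ → {a : ℕ // Even a ∧ a ≤ 2 * n} := fun x => ⟨2 * min x n, even_two_mul _, by
        have := min_le_right x n; omega⟩ with hf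
      have hfx : ∀ x ∈ Icc 1 n, (f x).1 = 2 * x := by
        intro x hx
        rw [mem_Icc] at hx
        rw [hf]
        simp only
        rw [min_eq_left hx.2]
      refine transfer (goldbach n) n K f ?_ ?_ _ _ E T hT hTc hp (insert (origin n) (E.image f)) ?_ ?_
      · intro x hx y hy hxy
        have := congrArg Subtype.val hxy
        rw [hfx x hx, hfx y hy] at this
        omega
      · intro x hx y hy hR
        have hx' := mem_Icc.1 hx
        have hy' := mem_Icc.1 hy
        have h1 := odd_of x y n hx'.1 hy'.1 hx'.2 hy'.2 hR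
        rw [← hfx x hx, ← hfx y hy] at h1
        exact ⟨fun h => h1.1 (congrArg Subtype.val h), h1.2⟩
      · have h1 : (insert (origin n) (E.image f)).card ≤ E.card + 1 :=
          (card_insert_le _ _).trans (Nat.add_le_add_right card_image_le 1)
        have h2 : ((insert (origin n) (E.image f)).card : ℝ) ≤ E.card + 1 := by
          exact_mod_cast h1
        exact h2.trans hEc
      · rintro ⟨a, ⟨b, hb⟩, ha⟩ hv
        rw [mem_insert, not_or] at hv
        have hb0 : b ≠ 0 := by
          rintro rfl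
          apply hv.1
          apply Subtype.ext
          change a = 0
          omega
        have hbI : b ∈ Icc 1 n := by rw [mem_Icc]; omega
        have hfb : f b = ⟨a, ⟨b, hb⟩, ha⟩ := by
          apply Subtype.ext
          rw [hfx b hbI]
          simp only
          omega
        refine ⟨b, hbI, fun hbE => hv.2 ?_, hfb⟩
        rw [← hfb]
        exact mem_image_of_mem f hbE
    · set f : ℕ → {a : ℕ // Even a ∧ 2 ≤ a ∧ a ≤ 2 * n} := fun x => ⟨2 * max 1 (min x n), even_two_mul _, by
        have := le_max_left 1 (min x n); omega, by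
        have : max 1 (min x n) ≤ n := max_le (by omega) (min_le_right x n)
        omega⟩ with hf
      have hfx : ∀ x ∈ Icc 1 n, (f x).1 = 2 * x := by
        intro x hx
        rw [mem_Icc] at hx
        rw [hf]
        simp only
        rw [min_eq_left hx.2, max_eq_right hx.1]
      refine transfer (nearGoldbach n) n K f ?_ ?_ _ _ E T hT hTc hp (E.image f) ?_ ?_
      · intro x hx y hy hxy
        have := congrArg Subtype.val hxy
        rw [hfx x hx, hfx y hy] at this
        omega
      · intro x hx y hy hR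
        have hx' := mem_Icc.1 hx
        have hy' := mem_Icc.1 hy
        have h1 := odd_of x y n hx'.1 hy'.1 hx'.2 hy'.2 hR
        rw [← hfx x hx, ← hfx y hy] at h1
        exact ⟨fun h => h1.1 (congrArg Subtype.val h), Or.inr h1.2.1, Or.inr h1.2.2⟩
      · have h1 : ((E.image f).card : ℝ) ≤ E.card := by exact_mod_cast card_image_le
        linarith
      · rintro ⟨a, ⟨b, hb⟩, ha2, ha⟩ hv
        have hbI : b ∈ Icc 1 n := by rw [mem_Icc]; omega
        have hfb : f b = ⟨a, ⟨b, hb⟩, ha2, ha⟩ := by
          apply Subtype.ext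
          rw [hfx b hbI]
          simp only
          omega
        refine ⟨b, hbI, fun hbE => hv ?_, hfb⟩
        rw [← hfb]
        exact mem_image_of_mem f hbE
  · obtain ⟨N, h0⟩ := h 0
    refine ⟨N + 1, fun n hn => ?_⟩
    obtain ⟨E, hE, T, hT, hEc, hTc, hp, r, hr, hr2, hrn, hrE⟩ := h0 n (by omega)
    have hrI : r ∈ Icc 1 n := by rw [mem_Icc]; exact ⟨hr.one_lt.le, hrn⟩
    refine (hp r hrI hrE).1.trans ?_
    have h2 : (N2 n r).card ≤ ball (goldbach n) 3 (origin n) := by
      unfold ball
      have hle : ∀ x ∈ N2 n r, 2 * x ≤ 2 * n := by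
        intro x hx
        have := (mem_Icc.1 (mem_filter.1 hx).1).2
        omega
      have hw : ∀ (x : ℕ) (hx : x ∈ N2 n r), Within (goldbach n) 3 (origin n)
          ⟨2 * x, even_two_mul _, hle x hx⟩ := by
        intro x hx
        have hx0 := hx
        unfold N2 at hx
        rw [mem_filter, card_pos] at hx
        obtain ⟨hx1, y, hy⟩ := hx
        unfold Cd at hy
        rw [mem_filter] at hy
        have hyI := mem_Icc.1 hy.1
        have hxI := mem_Icc.1 hx1
        have a1 : (goldbach n).Adj (origin n) ⟨2 * r, even_two_mul _, by omega⟩ := by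
          have hrodd : Odd r := by
            rcases hr.eq_two_or_odd' with h | h
            · exact absurd h hr2
            · exact h
          have hr3 := hr.two_le
          refine ⟨?_, ?_, ?_⟩
          · intro h
            have : 0 = 2 * r := congrArg Subtype.val h
            omega
          · have : (0 + 2 * r) / 2 = r := by omega
            change OddPrimeBelow n ((0 + 2 * r) / 2)
            rw [this]
            exact ⟨hr, hrodd, by omega⟩
          · have : Nat.dist 0 (2 * r) / 2 = r := by unfold Nat.dist; omega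
            change OddPrimeBelow n (Nat.dist 0 (2 * r) / 2)
            rw [this]
            exact ⟨hr, hrodd, by omega⟩
        have a2 : (goldbach n).Adj ⟨2 * r, even_two_mul _, by omega⟩ ⟨2 * y, even_two_mul _, by omega⟩ := by
          have h1 := odd_of r y n hr.one_lt.le hyI.1 hrn hyI.2 hy.2.1
          exact ⟨fun h => h1.1 (congrArg Subtype.val h), h1.2⟩
        have a3 : (goldbach n).Adj ⟨2 * y, even_two_mul _, by omega⟩ ⟨2 * x, even_two_mul _, hle x hx0⟩ := by
          have h1 := odd_of y x n hyI.1 hxI.1 hyI.2 hxI.2 (R_symm hy.2.2)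
          exact ⟨fun h => h1.1 (congrArg Subtype.val h), h1.2⟩
        exact Within.trans _ (Within.one _ a1) (Within.trans _ (Within.one _ a2) (Within.one _ a3))
      have hN : Nat.card (N2 n r : Set ℕ) = (N2 n r).card := by rw [Nat.card_coe_set_eq, Set.ncard_coe_finset]
      rw [← hN]
      apply Nat.card_le_card_of_injective (fun x' : (N2 n r : Set ℕ) =>
        (⟨⟨2 * x'.1, even_two_mul _, hle x'.1 x'.2⟩, hw x'.1 x'.2⟩ :
          {v : {a : ℕ // Even a ∧ a ≤ 2 * n} // Within (goldbach n) 3 (origin n) v}))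
      rintro ⟨a, ha⟩ ⟨b, hb⟩ hab
      have hab' := congrArg (fun v => v.1.1) hab
      simp only at hab'
      apply Subtype.ext
      simp only
      omega
    exact_mod_cast h2

end Pool.Agent.Results.MP_443e5f_co.BoundedlyManyBalls
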