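import Pool.Agent.Q107.GB.Fin2

/-!
# Fault tolerance of the intersections of the graphs `G(p, n)` over many primes

`G_n` has the vertices `0, 2, …, 2n`, two distinct vertices `a`, `b` being adjacent if `(a + b) / 2` and
`|a - b| / 2` are odd primes `< 2n`; `G(n)` has the vertices `2, 4, …, 2n`, and for each of the two numbers the
value `1` is also allowed. For an odd prime `p`, `G(p, n)` is the graph on `2, 4, …, 2n` in which `a ≠ b` are
adjacent if the two numbers are odd, `< 2n`, and not of the form `p k` with `k > 1`; `G(n)` is the intersection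
of the `G(p, n)` over the odd primes `p ≤ y` when `y ^ 2 ≥ 2n`. It is known (`MP_443e5f_co.SieveGraphs`) that for
`17 ≤ y ≤ n ^ c` the intersection over the odd primes `p ≤ y` is connected with diameter exactly `5`.

Here we determine, up to constant factors, how many vertices can be deleted. With `L = log y`:

* after the deletion of any set of at most `c n / L ^ 3` vertices the diameter is still exactly `5`, and this is
  sharp up to the constant: some set of at most `C n / L ^ 3` vertices makes the diameter at least `7`;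
* after the deletion of any set of at most `c n / L ^ 2` vertices the graph is connected and its diameter is at
  most `7`, and some set of at most `C n / L ^ 2` vertices (the neighbours of the vertex `2`) disconnects it; so the
  vertex connectivity is of the order `n / L ^ 2`, the order of the minimal degree;
* any two nonadjacent vertices are joined by at least `c n / L ^ 2` paths of length at most `7` with pairwise
  disjoint interiors;
* the bound `7` is attained for all large `y`.

The same holds for the version for `G_n`.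
-/

set_option autoImplicit false

namespace Pool.Agent.Results.MP_443e5f_co.FaultTolerance

/-- the even numbers from `v` to `2 n` -/
abbrev Vertices (v n : ℕ) := {a : ℕ // Even a ∧ v ≤ a ∧ a ≤ 2 * n}

/-- `m` is an odd number with `s ≤ m < 2 n` that is not of the form `p k` with `k > 1` -/
def Sifted (s p n m : ℕ) : Prop := Odd m ∧ s ≤ m ∧ m < 2 * n ∧ ∀ k : ℕ, 1 < k → m ≠ p * k

/-- The graph on the even numbers from `v` to `2 n` in which `a ≠ b` are adjacent if `(a + b) / 2` and
`|a - b| / 2` are odd numbers `≥ s` and `< 2 n` not of the form `p k` with `k > 1`. For `v = 2` and `s = 1` it is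
the graph `G(p, n)`. -/
def primeGraph (v s p n : ℕ) : SimpleGraph (Vertices v n) where
  Adj a b := a ≠ b ∧ Sifted s p n ((a.1 + b.1) / 2) ∧ Sifted s p n (Nat.dist a.1 b.1 / 2)
  symm := ⟨by
    rintro a b ⟨h1, h2, h3⟩
    refine ⟨h1.symm, ?_, ?_⟩
    · rw [add_comm]; exact h2
    · rw [Nat.dist_comm]; exact h3⟩
  loopless := ⟨fun _ h => h.1 rfl⟩

/-- the odd primes up to `y` -/
def smallPrimes (y : ℕ) : Set ℕ := {p | p.Prime ∧ p ≠ 2 ∧ p ≤ y}

/-- the intersection of the graphs `G(p, n)` over the odd primes `p ≤ y` -/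
def nearInter (n y : ℕ) : SimpleGraph (Vertices 2 n) := ⨅ p : smallPrimes y, primeGraph 2 1 p n

/-- the corresponding intersection for `G_n`: on `{0, 2, …, 2n}`, and the two numbers are at least `3` -/
def goldbachInter (n y : ℕ) : SimpleGraph (Vertices 0 n) := ⨅ p : smallPrimes y, primeGraph 0 3 p n

/-- the graph `G` with the vertices of `D` deleted -/
abbrev del {V : Type} (G : SimpleGraph V) (D : Finset V) : SimpleGraph {x | x ∉ D} := G.induce {x | x ∉ D}

/-- Two vertices `u`, `v` are joined by `k` different paths of length at most `r`, no two of which have a common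
vertex apart from `u` and `v`. -/
def Joined {V : Type} (G : SimpleGraph V) (u v : V) (k r : ℕ) : Prop :=
  ∃ P : Fin k → G.Path u v, Function.Injective P ∧ (∀ i, (P i).1.length ≤ r) ∧
    ∀ i j, i ≠ j → ∀ x, x ∈ (P i).1.support → x ∈ (P j).1.support → x = u ∨ x = v

/-- the tolerance of a graph: `a`, `b` are lower bounds and `A`, `B` upper bounds -/
structure Tolerance {V : Type} (G : SimpleGraph V) (a b A B : ℝ) : Prop where
  /-- after the deletion of at most `a` vertices the diameter is exactly `5` -/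
  five : ∀ D : Finset V, (D.card : ℝ) ≤ a → (del G D).ediam = 5
  /-- after the deletion of at most `b` vertices the graph is connected, with diameter at most `7` -/
  seven : ∀ D : Finset V, (D.card : ℝ) ≤ b → (del G D).Connected ∧ (del G D).ediam ≤ 7
  /-- some set of at most `A` vertices makes the diameter at least `7` -/
  longer : ∃ D : Finset V, (D.card : ℝ) ≤ A ∧ 7 ≤ (del G D).ediam
  /-- some set of at most `B` vertices disconnects the graph -/
  cut : ∃ D : Finset V, (D.card : ℝ) ≤ B ∧ ¬ (del G D).Connected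
  /-- nonadjacent vertices are joined by `k` disjoint paths of length at most `7` for all `k ≤ b` -/
  menger : ∀ u v : V, u ≠ v → ¬ G.Adj u v → ∀ k : ℕ, (k : ℝ) ≤ b → Joined G u v k 7

open Pool.Agent.Q102.GG

lemma inter_eq (v s n y : ℕ) (hy : 3 ≤ y) : (⨅ p : smallPrimes y, primeGraph v s p n) = SG s v n y := by
  ext a b
  rw [SimpleGraph.iInf_adj]
  have h3 : (3 : ℕ) ∈ smallPrimes y := ⟨Nat.prime_three, by norm_num, hy⟩
  constructor
  · rintro ⟨h, hne⟩
    obtain ⟨-, ⟨a1, a2, a3, -⟩, ⟨b1, b2, b3, -⟩⟩ := h ⟨3, h3⟩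
    refine ⟨fun hab => hne (Subtype.ext hab), ⟨a1, a2, a3, ?_⟩, ⟨b1, b2, b3, ?_⟩⟩
    · intro p hp hp2 hpy
      exact (h ⟨p, hp, hp2, hpy⟩).2.1.2.2.2
    · intro p hp hp2 hpy
      exact (h ⟨p, hp, hp2, hpy⟩).2.2.2.2.2
  · rintro ⟨hne, ⟨a1, a2, a3, a4⟩, ⟨b1, b2, b3, b4⟩⟩
    have hne' : a ≠ b := fun h => hne (congrArg Subtype.val h)
    refine ⟨?_, hne'⟩
    rintro ⟨p, hp, hp2, hpy⟩
    exact ⟨hne', ⟨a1, a2, a3, a4 p hp hp2 hpy⟩, ⟨b1, b2, b3, b4 p hp hp2 hpy⟩⟩

theorem result :
    ∃ c : ℝ, 0 < c ∧ ∃ C : ℝ, 0 < C ∧ ∃ N : ℕ,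
      (∀ n y : ℕ, N ≤ n → 17 ≤ y → (y : ℝ) ≤ (n : ℝ) ^ c →
        Tolerance (nearInter n y) (c * n / Real.log y ^ 3) (c * n / Real.log y ^ 2)
          (C * n / Real.log y ^ 3) (C * n / Real.log y ^ 2) ∧
        Tolerance (goldbachInter n y) (c * n / Real.log y ^ 3) (c * n / Real.log y ^ 2)
          (C * n / Real.log y ^ 3) (C * n / Real.log y ^ 2)) ∧
      -- for large `y` the bound `7` is attained after a deletion which leaves the graph connected
      (∀ n y : ℕ, N ≤ n → C / c ≤ Real.log y → (y : ℝ) ≤ (n : ℝ) ^ c →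
        (∃ D : Finset (Vertices 2 n), (D.card : ℝ) ≤ C * n / Real.log y ^ 3 ∧
          (del (nearInter n y) D).Connected ∧ (del (nearInter n y) D).ediam = 7) ∧
        (∃ D : Finset (Vertices 0 n), (D.card : ℝ) ≤ C * n / Real.log y ^ 3 ∧
          (del (goldbachInter n y) D).Connected ∧ (del (goldbachInter n y) D).ediam = 7)) := by
  obtain ⟨c, hc, B, hB, N, H⟩ := Pool.Agent.Q107.GB.main
  have key : ∀ n y lo v0 : ℕ, N ≤ n → 17 ≤ y → (y : ℝ) ≤ (n : ℝ) ^ c → lo ≤ 3 → v0 ≤ 2 →
      Tolerance (SG lo v0 n y) (c * n / Real.log y ^ 3) (c * n / Real.log y ^ 2)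
          ((B + 3 * c) * n / Real.log y ^ 3) ((B + 3 * c) * n / Real.log y ^ 2) := by
    intro n y lo v0 hn hy hyn hlo hv0
    obtain ⟨h1, h2, ⟨D3, h31, h32⟩, ⟨D4, h41, h42⟩, h5⟩ := H n y lo v0 hn hy hyn hlo hv0
    have hl0 : 0 < Real.log y := Real.log_pos (by exact_mod_cast (by omega : 1 < y))
    refine ⟨h1, h2, ⟨D3, h31.trans ?_, h32⟩, ⟨D4, h41.trans ?_, h42⟩, ?_⟩
    · gcongr
      linarith
    · gcongr
      linarith
    · intro u v huv hna k hk
      obtain ⟨P, hP1, hP2⟩ := h5 u v k hk
      refine ⟨P, ?_, hP1, hP2⟩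
      intro i j hij
      by_contra hne
      have hlen : (P i).1.length ≠ 0 := fun h => huv (SimpleGraph.Walk.eq_of_length_eq_zero h)
      obtain ⟨m, hm⟩ : ∃ m, (P i).1.length = m + 1 := ⟨(P i).1.length - 1, by omega⟩
      have hadj : ∃ x, (SG lo v0 n y).Adj u x ∧ x ∈ (P i).1.support := by
        generalize (P i).1 = w at hm
        cases w with
        | nil => simp at hm
        | cons h w' =>
          refine ⟨_, h, ?_⟩
          rw [SimpleGraph.Walk.support_cons]
          exact List.mem_cons_of_mem _ (SimpleGraph.Walk.start_mem_support w')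
      obtain ⟨x, hx1, hx2⟩ := hadj
      have hx3 : x ∈ (P j).1.support := by rw [← hij]; exact hx2
      rcases hP2 i j hne x hx2 hx3 with h | h
      · subst h
        exact hx1.ne rfl
      · subst h
        exact hna hx1
  refine ⟨c, hc, B + 3 * c, by positivity, N, ?_, ?_⟩
  · intro n y hn hy hyn
    rw [nearInter, goldbachInter, inter_eq 2 1 n y (by omega), inter_eq 0 3 n y (by omega)]
    exact ⟨key n y 1 2 hn hy hyn (by norm_num) le_rfl, key n y 3 0 hn hy hyn le_rfl (by norm_num)⟩
  · intro n y hn hCy hyn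
    have hlog : 3 ≤ Real.log y := by
      refine le_trans ?_ hCy
      rw [le_div_iff₀ hc]
      linarith
    have hy17 : 17 ≤ y := by
      by_contra h
      have h1 : (y : ℝ) ≤ 16 := by exact_mod_cast (by omega : y ≤ 16)
      have hypos : (0 : ℝ) < y := by
        rcases Nat.eq_zero_or_pos y with h0 | h0
        · subst h0
          rw [Nat.cast_zero, Real.log_zero] at hlog
          norm_num at hlog
        · exact_mod_cast h0
      have h2 : Real.exp 3 ≤ y := (Real.le_log_iff_exp_le hypos).1 hlog
      have h3 : (2.7182818283 : ℝ) < Real.exp 1 := Real.exp_one_gt_d9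
      have h4 : Real.exp 3 = Real.exp 1 ^ 3 := by
        rw [← Real.exp_nat_mul]
        norm_num
      have h5 : (2.7 : ℝ) ^ 3 ≤ Real.exp 1 ^ 3 := pow_le_pow_left₀ (by norm_num) (by linarith) 3
      rw [h4] at h2
      norm_num at h5
      linarith
    have comb : ∀ lo v0 : ℕ, lo ≤ 3 → v0 ≤ 2 → ∃ D : Finset (Vertices v0 n),
        (D.card : ℝ) ≤ (B + 3 * c) * n / Real.log y ^ 3 ∧
          (del (SG lo v0 n y) D).Connected ∧ (del (SG lo v0 n y) D).ediam = 7 := by
      intro lo v0 hlo hv0
      obtain ⟨-, h2, ⟨D, h31, h32⟩, -, -⟩ := key n y lo v0 hn hy17 hyn hlo hv0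
      have hl0 : 0 < Real.log y := by linarith
      have hD : (D.card : ℝ) ≤ c * n / Real.log y ^ 2 := by
        refine h31.trans ?_
        rw [div_le_div_iff₀ (by positivity) (by positivity)]
        rw [div_le_iff₀ hc] at hCy
        have hn0 : (0 : ℝ) ≤ n := Nat.cast_nonneg n
        calc (B + 3 * c) * n * Real.log y ^ 2 ≤ (Real.log y * c) * n * Real.log y ^ 2 := by gcongr
          _ = c * n * Real.log y ^ 3 := by ring
      obtain ⟨h3, h4⟩ := h2 D hD
      exact ⟨D, h31, h3, le_antisymm h4 h32⟩
    rw [nearInter, goldbachInter, inter_eq 2 1 n y (by omega), inter_eq 0 3 n y (by omega)]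
    exact ⟨comb 1 2 (by norm_num) le_rfl, comb 3 0 le_rfl (by norm_num)⟩

end Pool.Agent.Results.MP_443e5f_co.FaultTolerance
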