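import Pool.Agent.Q102.GG.Lower

/-!
# The intersections of the graphs `G(p, n)` over many primes have diameter five

`G_n` has the vertices `0, 2, …, 2n`, two distinct vertices `a`, `b` being adjacent if `(a + b) / 2` and
`|a - b| / 2` are odd primes `< 2n`; `G(n)` has the vertices `2, 4, …, 2n`, and for each of the two numbers the
value `1` is also allowed. For an odd prime `p`, `G(p, n)` is the graph on `2, 4, …, 2n` in which `a ≠ b` are
adjacent if the two numbers are odd, `< 2n`, and not of the form `p k` with `k > 1`. The intersection of the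
`G(p, n)` over the odd primes `p ≤ y` is `G(n)` when `y ^ 2 ≥ 2n`. It was known that `G(3, n)` has diameter at
most `3` and the intersection of `G(3, n)` and `G(5, n)` diameter at most `4`.

There is `c > 0` such that for all large `n` and all `17 ≤ y ≤ n ^ c` the intersection over the odd primes
`p ≤ y` is connected and its diameter is exactly `5`; the same for the version for `G_n`. The lower bound needs
no upper bound for `y`: in all the intersections with `y ≥ 17`, so in `G(n)` and in `G_n`, a positive proportion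
of the pairs of vertices is at distance at least `5`.
-/

set_option autoImplicit false

namespace Pool.Agent.Results.MP_443e5f_co.SieveGraphs

/-- the even numbers from `v` to `2 n` -/
abbrev Vertices (v n : ℕ) := {a : ℕ // Even a ∧ v ≤ a ∧ a ≤ 2 * n}

/-- `m` is an odd prime smaller than `2 n` -/
def OddPrimeBelow (n m : ℕ) : Prop := m.Prime ∧ Odd m ∧ m < 2 * n

/-- the finite Goldbach graph `G_n` on `{0, 2, …, 2n}` -/
def goldbach (n : ℕ) : SimpleGraph (Vertices 0 n) where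
  Adj a b := a ≠ b ∧ OddPrimeBelow n ((a.1 + b.1) / 2) ∧ OddPrimeBelow n (Nat.dist a.1 b.1 / 2)
  symm := ⟨by
    rintro a b ⟨h1, h2, h3⟩
    refine ⟨h1.symm, ?_, ?_⟩
    · rw [add_comm]; exact h2
    · rw [Nat.dist_comm]; exact h3⟩
  loopless := ⟨fun _ h => h.1 rfl⟩

/-- the finite near Goldbach graph `G(n)` on `{2, 4, …, 2n}` -/
def nearGoldbach (n : ℕ) : SimpleGraph (Vertices 2 n) where
  Adj a b := a ≠ b ∧ ((a.1 + b.1) / 2 = 1 ∨ OddPrimeBelow n ((a.1 + b.1) / 2)) ∧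
    (Nat.dist a.1 b.1 / 2 = 1 ∨ OddPrimeBelow n (Nat.dist a.1 b.1 / 2))
  symm := ⟨by
    rintro a b ⟨h1, h2, h3⟩
    refine ⟨h1.symm, ?_, ?_⟩
    · rw [add_comm]; exact h2
    · rw [Nat.dist_comm]; exact h3⟩
  loopless := ⟨fun _ h => h.1 rfl⟩

/-- `m` is an odd number with `s ≤ m < 2 n` that is not of the form `p k` with `k > 1` -/
def Sifted (s p n m : ℕ) : Prop := Odd m ∧ s ≤ m ∧ m < 2 * n ∧ ∀ k : ℕ, 1 < k → m ≠ p * k

/-- The graph on the even numbers from `v` to `2 n` in which `a ≠ b` are adjacent if `(a + b) / 2` and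
`|a - b| / 2` are odd numbers `≥ s` and `< 2 n` not of the form `p k` with `k > 1`. For `v = 2` and `s = 1` it is
the graph `G(p, n)`. -/
def primeGraph (v s p n : ℕ) : SimpleGraph (Vertices v n) where
  Adj a b := a ≠ b ∧ Sifted s p n ((a.1 + b.1) / 2) ∧ Sifted s p n (Nat.dist a.1 b.1 / 2)
  symm := ⟨by
    rintro a b ⟨h1, h2, h3⟩
    refine ⟨h1.symm, ?_, ?_⟩
    · rw [add_comm]; exact h2
    · rw [Nat.dist_comm]; exact h3⟩
  loopless := ⟨fun _ h => h.1 rfl⟩

/-- the odd primes up to `y` -/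
def smallPrimes (y : ℕ) : Set ℕ := {p | p.Prime ∧ p ≠ 2 ∧ p ≤ y}

/-- the intersection of the graphs `G(p, n)` over the odd primes `p ≤ y` -/
def nearInter (n y : ℕ) : SimpleGraph (Vertices 2 n) := ⨅ p : smallPrimes y, primeGraph 2 1 p n

/-- the corresponding intersection for `G_n`: on `{0, 2, …, 2n}`, and the two numbers are at least `3` -/
def goldbachInter (n y : ℕ) : SimpleGraph (Vertices 0 n) := ⨅ p : smallPrimes y, primeGraph 0 3 p n

/-- the number of pairs of vertices at distance at least `5` -/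
noncomputable def farPairs {V : Type} (G : SimpleGraph V) : ℕ :=
  Nat.card {q : V × V // 5 ≤ G.edist q.1 q.2}

open Pool.Agent.Q102.GG

lemma inter_eq (v s n y : ℕ) (hy : 3 ≤ y) : (⨅ p : smallPrimes y, primeGraph v s p n) = SG s v n y := by
  ext a b
  rw [SimpleGraph.iInf_adj]
  have h3 : (3 : ℕ) ∈ smallPrimes y := ⟨Nat.prime_three, by norm_num, hy⟩
  constructor
  · rintro ⟨h, hne⟩
    obtain ⟨-, ⟨a1, a2, a3, -⟩, ⟨b1, b2, b3, -⟩⟩ := h ⟨3, h3⟩
    refine ⟨fun hab => hne (Subtype.ext hab), ⟨a1, a2, a3, ?_⟩, ⟨b1, b2, b3, ?_⟩⟩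
    · intro p hp hp2 hpy
      exact (h ⟨p, hp, hp2, hpy⟩).2.1.2.2.2
    · intro p hp hp2 hpy
      exact (h ⟨p, hp, hp2, hpy⟩).2.2.2.2.2
  · rintro ⟨hne, ⟨a1, a2, a3, a4⟩, ⟨b1, b2, b3, b4⟩⟩
    have hne' : a ≠ b := fun h => hne (congrArg Subtype.val h)
    refine ⟨?_, hne'⟩
    rintro ⟨p, hp, hp2, hpy⟩
    exact ⟨hne', ⟨a1, a2, a3, a4 p hp hp2 hpy⟩, ⟨b1, b2, b3, b4 p hp hp2 hpy⟩⟩

lemma ok_prime {lo n y m : ℕ} (hy : 2 * n ≤ y ^ 2) (h : Ok lo n y m) (h3 : m ≠ 1) :
    OddPrimeBelow n m := by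
  obtain ⟨h1, -, h2, h4⟩ := h
  refine ⟨?_, h1, h2⟩
  by_contra hp
  have hpos : 0 < m := h1.pos
  have hm2 : m % 2 = 1 := Nat.odd_iff.1 h1
  have hq := Nat.minFac_prime h3
  obtain ⟨k, hk⟩ := Nat.minFac_dvd m
  have hsq : m.minFac ^ 2 ≤ m := Nat.minFac_sq_le_self hpos hp
  have hq2 : m.minFac ≠ 2 := by
    intro h
    rw [h] at hk
    omega
  have hle : m.minFac ≤ y := by
    by_contra hlt
    push Not at hlt
    have : y ^ 2 < m.minFac ^ 2 := Nat.pow_lt_pow_left hlt (by norm_num)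
    omega
  have hk1 : 1 < k := by
    rcases Nat.lt_or_ge 1 k with h | h
    · exact h
    · exfalso
      have : k = 0 ∨ k = 1 := by omega
      rcases this with rfl | rfl
      · omega
      · apply hp
        rw [hk, mul_one]
        exact hq
  exact h4 _ hq hq2 hle k hk1 hk

lemma prime_ok {lo n y m : ℕ} (hlo : lo ≤ 3) (h : OddPrimeBelow n m) : Ok lo n y m := by
  obtain ⟨h1, h2, h3⟩ := h
  have hm2 : m % 2 = 1 := Nat.odd_iff.1 h2
  have := h1.two_le
  refine ⟨h2, by omega, h3, ?_⟩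
  intro p hp hp2 _ k hk heq
  have hd : p ∣ m := ⟨k, heq⟩
  rcases (Nat.dvd_prime h1).1 hd with h | h
  · exact hp.one_lt.ne' h
  · subst h
    have : p * 1 < p * k := Nat.mul_lt_mul_of_pos_left hk hp.pos
    omega

lemma near_eq (n y : ℕ) (hy3 : 3 ≤ y) (hy : 2 * n ≤ y ^ 2) : nearInter n y = nearGoldbach n := by
  rw [nearInter, inter_eq 2 1 n y hy3]
  ext a b
  have ha := a.2.2
  have one : Ok 1 n y 1 := by
    refine ⟨odd_one, le_rfl, by omega, ?_⟩
    intro p hp _ _ k hk heq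
    have := Nat.eq_one_of_mul_eq_one_right heq.symm
    exact hp.one_lt.ne' this
  have key : ∀ m : ℕ, Ok 1 n y m ↔ (m = 1 ∨ OddPrimeBelow n m) := by
    intro m
    constructor
    · intro h
      by_cases h1 : m = 1
      · exact Or.inl h1
      · exact Or.inr (ok_prime hy h h1)
    · rintro (rfl | h)
      · exact one
      · exact prime_ok (by norm_num) h
  constructor
  · rintro ⟨h1, h2, h3⟩
    exact ⟨fun h => h1 (congrArg Subtype.val h), (key _).1 h2, (key _).1 h3⟩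
  · rintro ⟨h1, h2, h3⟩
    exact ⟨fun h => h1 (Subtype.ext h), (key _).2 h2, (key _).2 h3⟩

lemma gold_eq (n y : ℕ) (hy3 : 3 ≤ y) (hy : 2 * n ≤ y ^ 2) : goldbachInter n y = goldbach n := by
  rw [goldbachInter, inter_eq 0 3 n y hy3]
  ext a b
  have key : ∀ m : ℕ, Ok 3 n y m ↔ OddPrimeBelow n m := by
    intro m
    constructor
    · intro h
      exact ok_prime hy h (by have := h.2.1; omega)
    · exact prime_ok le_rfl
  constructor
  · rintro ⟨h1, h2, h3⟩
    exact ⟨fun h => h1 (congrArg Subtype.val h), (key _).1 h2, (key _).1 h3⟩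
  · rintro ⟨h1, h2, h3⟩
    exact ⟨fun h => h1 (Subtype.ext h), (key _).2 h2, (key _).2 h3⟩

/-- the period of the two classes -/
def per : ℕ := 1021020

lemma far (lo v n y : ℕ) (hv : v ≤ 2) (hy : 17 ≤ y) (a d : ℕ) (ha : Ra a) (hd : Rd d) (ha' : a ≤ 2 * n)
    (hd' : d ≤ 2 * n) (h1 : Even a ∧ v ≤ a ∧ a ≤ 2 * n) (h2 : Even d ∧ v ≤ d ∧ d ≤ 2 * n) :
    5 ≤ (SG lo v n y).edist ⟨a, h1⟩ ⟨d, h2⟩ := by
  rw [SimpleGraph.edist]
  refine le_iInf fun w => ?_
  exact_mod_cast lower lo v n y hy ⟨a, h1⟩ ⟨d, h2⟩ ha hd w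

lemma cls1 (i : ℕ) : Ra (87516 + per * i) := by
  unfold Ra per
  refine ⟨by omega, by omega, by omega, by omega, by omega, by omega, by omega⟩

lemma cls2 (i : ℕ) : Rd (226626 + per * i) := by
  unfold Rd per
  refine ⟨by omega, by omega, by omega, by omega, by omega, by omega, by omega⟩

lemma farCount (lo v n y : ℕ) (hv : v ≤ 2) (hy : 17 ≤ y) (hn : per ≤ n) :
    (1 / (per : ℝ) ^ 2) * (n : ℝ) ^ 2 ≤ farPairs (SG lo v n y) := by
  have hfin : Finite (Vertices v n) :=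
    Finite.of_injective (fun a => (⟨a.1, by have := a.2.2.2; omega⟩ : Fin (2 * n + 1)))
      (fun a b h => Subtype.ext (by simpa using h))
  set K := 2 * n / per with hK
  have hKn : per * K ≤ 2 * n := Nat.mul_div_le _ _
  have hKn' : 2 * n < per * K + per := by
    have := Nat.div_add_mod (2 * n) per
    have h2 : 2 * n % per < per := Nat.mod_lt _ (by unfold per; norm_num)
    rw [← hK] at this
    omega
  have hle1 : ∀ i : Fin K, 226626 + per * i.1 ≤ 2 * n := by
    intro i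
    have h1 : per * i.1 + per ≤ per * K := by
      have : i.1 + 1 ≤ K := i.2
      calc per * i.1 + per = per * (i.1 + 1) := by ring
        _ ≤ per * K := Nat.mul_le_mul_left _ this
    have h2 : 226626 ≤ per := by unfold per; norm_num
    omega
  have hle2 : ∀ i : Fin K, 87516 + per * i.1 ≤ 2 * n := by
    intro i
    have := hle1 i
    omega
  have v1 : ∀ i : Fin K, Even (87516 + per * i.1) ∧ v ≤ 87516 + per * i.1 ∧ 87516 + per * i.1 ≤ 2 * n := by
    intro i
    refine ⟨?_, by omega, hle2 i⟩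
    rw [Nat.even_iff]
    unfold per
    omega
  have v2 : ∀ i : Fin K, Even (226626 + per * i.1) ∧ v ≤ 226626 + per * i.1 ∧ 226626 + per * i.1 ≤ 2 * n := by
    intro i
    refine ⟨?_, by omega, hle1 i⟩
    rw [Nat.even_iff]
    unfold per
    omega
  let f : Fin K × Fin K → {q : Vertices v n × Vertices v n // 5 ≤ (SG lo v n y).edist q.1 q.2} :=
    fun q => ⟨(⟨87516 + per * q.1.1, v1 q.1⟩, ⟨226626 + per * q.2.1, v2 q.2⟩),
      far lo v n y hv hy _ _ (cls1 _) (cls2 _) (hle2 _) (hle1 _) (v1 _) (v2 _)⟩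
  have hf : Function.Injective f := by
    rintro ⟨i, j⟩ ⟨i', j'⟩ h
    have h1 := congrArg (fun q => (q.1.1.1, q.1.2.1)) h
    simp only [f, Prod.mk.injEq] at h1
    have hpos : 0 < per := by unfold per; norm_num
    have e1 : i.1 = i'.1 := Nat.eq_of_mul_eq_mul_left hpos (by omega)
    have e2 : j.1 = j'.1 := Nat.eq_of_mul_eq_mul_left hpos (by omega)
    rw [Fin.ext e1, Fin.ext e2]
  have hcard := Nat.card_le_card_of_injective f hf
  rw [Nat.card_prod, Nat.card_fin] at hcard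
  have hKr : (n : ℝ) ≤ per * K := by
    have : n ≤ per * K := by omega
    exact_mod_cast this
  have hper : (0 : ℝ) < per := by unfold per; norm_num
  have hcr : (K : ℝ) * K ≤ farPairs (SG lo v n y) := by exact_mod_cast hcard
  refine le_trans ?_ hcr
  have h1 : (n : ℝ) ^ 2 ≤ (per * K : ℝ) ^ 2 := by
    have h0 : (0 : ℝ) ≤ n := Nat.cast_nonneg n
    gcongr
  rw [div_mul_eq_mul_div, one_mul, div_le_iff₀ (by positivity)]
  calc (n : ℝ) ^ 2 ≤ (per * K : ℝ) ^ 2 := h1
    _ = K * K * (per : ℝ) ^ 2 := by ring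

lemma ediam_five (lo v n y : ℕ) (hv : v ≤ 2) (hy : 17 ≤ y) (hn : per ≤ n)
    (h : ∀ a b : VT v n, Wi (SG lo v n y) 5 a b) : (SG lo v n y).ediam = 5 := by
  apply le_antisymm
  · rw [SimpleGraph.ediam_le_iff]
    intro a b
    obtain ⟨w, hw⟩ := h a b
    refine (SimpleGraph.edist_le w).trans ?_
    exact_mod_cast hw
  · have h0 : 226626 ≤ 2 * n := by
      unfold per at hn
      omega
    have v1 : Even 87516 ∧ v ≤ 87516 ∧ 87516 ≤ 2 * n := ⟨by decide, by omega, by omega⟩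
    have v2 : Even 226626 ∧ v ≤ 226626 ∧ 226626 ≤ 2 * n := ⟨by decide, by omega, by omega⟩
    refine le_trans (far lo v n y hv hy _ _ (cls1 0) (cls2 0) ?_ ?_ ?_ ?_) SimpleGraph.edist_le_ediam
    · simpa using v1.2.2
    · simpa using v2.2.2
    · simpa using v1
    · simpa using v2

lemma range {C n y : ℕ} (hC : 1 ≤ C) (hn : (C * 2 ^ C) ^ 2 + 6 ≤ n) (hy : 17 ≤ y)
    (h : (y : ℝ) ≤ (n : ℝ) ^ (1 / (2 * (C : ℝ)))) : C * (y + 2) ^ C ≤ 2 * n - 6 := by
  have hCr : (0 : ℝ) < C := by exact_mod_cast hC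
  have h1 : (y : ℝ) ^ (2 * C) ≤ n := by
    calc (y : ℝ) ^ (2 * C) ≤ ((n : ℝ) ^ (1 / (2 * (C : ℝ)))) ^ (2 * C) := by gcongr
      _ = (n : ℝ) ^ (1 / (2 * (C : ℝ)) * ((2 * C : ℕ) : ℝ)) := by
          rw [Real.rpow_mul_natCast (Nat.cast_nonneg n)]
      _ = n := by
          rw [show (1 / (2 * (C : ℝ)) * ((2 * C : ℕ) : ℝ)) = 1 by push_cast; field_simp, Real.rpow_one]
  have h2 : y ^ (2 * C) ≤ n := by exact_mod_cast h1
  have h3 : (y ^ C) ^ 2 ≤ n := by rw [← pow_mul, mul_comm C 2]; exact h2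
  have h4 : (y + 2) ^ C ≤ (2 * y) ^ C := Nat.pow_le_pow_left (by omega) C
  have h5 : C * (y + 2) ^ C ≤ (C * 2 ^ C) * y ^ C := by
    calc C * (y + 2) ^ C ≤ C * (2 * y) ^ C := Nat.mul_le_mul_left _ h4
      _ = (C * 2 ^ C) * y ^ C := by rw [mul_pow]; ring
  have h6 : ((C * 2 ^ C) * y ^ C) ^ 2 ≤ n ^ 2 := by
    rw [mul_pow, sq n]
    exact Nat.mul_le_mul (by omega) h3
  have h7 : (C * 2 ^ C) * y ^ C ≤ n := by
    by_contra hlt
    push Not at hlt
    have := Nat.pow_lt_pow_left hlt (n := 2) (by norm_num)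
    omega
  omega

theorem result :
    -- for `17 ≤ y ≤ n ^ c` the intersections over the odd primes `p ≤ y` have diameter exactly `5`
    (∃ c : ℝ, 0 < c ∧ ∃ N : ℕ, ∀ n y : ℕ, N ≤ n → 17 ≤ y → (y : ℝ) ≤ (n : ℝ) ^ c →
      (nearInter n y).ediam = 5 ∧ (goldbachInter n y).ediam = 5) ∧
    -- a positive proportion of the pairs is at distance at least `5`, for every `y ≥ 17` and for the Goldbach graphs
    (∃ δ : ℝ, 0 < δ ∧ ∃ N : ℕ, ∀ n : ℕ, N ≤ n →
      (∀ y : ℕ, 17 ≤ y → δ * (n : ℝ) ^ 2 ≤ farPairs (nearInter n y) ∧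
        δ * (n : ℝ) ^ 2 ≤ farPairs (goldbachInter n y)) ∧
      δ * (n : ℝ) ^ 2 ≤ farPairs (nearGoldbach n) ∧ δ * (n : ℝ) ^ 2 ≤ farPairs (goldbach n)) ∧
    -- the full intersections are the Goldbach graphs
    (∀ n y : ℕ, 3 ≤ y → 2 * n ≤ y ^ 2 → nearInter n y = nearGoldbach n ∧ goldbachInter n y = goldbach n) := by
  refine ⟨?_, ?_, fun n y hy3 hy => ⟨near_eq n y hy3 hy, gold_eq n y hy3 hy⟩⟩
  · obtain ⟨C, hC, H⟩ := upper
    refine ⟨1 / (2 * (C : ℝ)), by positivity, (C * 2 ^ C) ^ 2 + 6 + per, ?_⟩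
    intro n y hn hy hyn
    have hr := range hC (by omega) hy hyn
    rw [nearInter, goldbachInter, inter_eq 2 1 n y (by omega), inter_eq 0 3 n y (by omega)]
    exact ⟨ediam_five 1 2 n y le_rfl hy (by omega) (H 1 2 n y (by norm_num) le_rfl hr),
      ediam_five 3 0 n y (by norm_num) hy (by omega) (H 3 0 n y le_rfl (by norm_num) hr)⟩
  · have hper : (0 : ℝ) < per := by unfold per; norm_num
    refine ⟨1 / (per : ℝ) ^ 2, by positivity, per, ?_⟩
    intro n hn
    have key : ∀ y : ℕ, 17 ≤ y → 1 / (per : ℝ) ^ 2 * (n : ℝ) ^ 2 ≤ farPairs (nearInter n y) ∧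
        1 / (per : ℝ) ^ 2 * (n : ℝ) ^ 2 ≤ farPairs (goldbachInter n y) := by
      intro y hy
      rw [nearInter, goldbachInter, inter_eq 2 1 n y (by omega), inter_eq 0 3 n y (by omega)]
      exact ⟨farCount 1 2 n y le_rfl hy hn, farCount 3 0 n y (by norm_num) hy hn⟩
    refine ⟨key, ?_⟩
    have h17 : 17 ≤ 2 * n := by
      unfold per at hn
      omega
    have h := key (2 * n) h17
    have hsq : 2 * n ≤ (2 * n) ^ 2 := Nat.le_self_pow (by norm_num) _
    rw [near_eq n (2 * n) (by omega) hsq, gold_eq n (2 * n) (by omega) hsq] at h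
    exact h

end Pool.Agent.Results.MP_443e5f_co.SieveGraphs
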