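import Pool.Agent.Q107.GR.Fin
import Pool.Agent.Q107.GR.Few2

/-!
# The large components of the Goldbach graphs, and Goldbach graphs of slightly more than the primes

`G_n` has the vertices `0, 2, …, 2n`, two distinct vertices `a`, `b` being adjacent if `(a + b) / 2` and
`|a - b| / 2` are odd primes `< 2n`; `G(n)` has the vertices `2, 4, …, 2n`, and for each of the two numbers the
value `1` is also allowed. Whether these graphs are connected is Goldbach's conjecture.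

* **Roots.** For both families there is a fixed finite nonempty set `F` of vertices such that, for all large `n`,
  the elements of `F` lie in different components, each of these components has at least `c n` vertices, and for
  every `A` all but at most `n / (log n) ^ A` vertices are within distance `C log n` of an element of `F`. So the
  number of large components is the same for all large `n`, and two vertices of one large component, up to few
  exceptional ones, are at distance `O(log n)`.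
* **Bounded differences.** If `|a - b| / 2` may also be one of the odd numbers up to a certain constant, then all
  but `n / (log n) ^ A` vertices are in one component, with distances `O(log n)`.
* **Logarithmically many differences.** There is a fixed set with at most `C log x` elements up to `x` such that, if
  `|a - b| / 2` may also be in this set, the distances between all but `n / (log n) ^ A` vertices are at most `19`.
* **All vertices.** For almost every choice of `k ≥ K (log n) ^ 2` random odd numbers as additional differences both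
  graphs are connected with diameter at most `9`. There is also a fixed set with at most `C (log x) ^ 3` elements up
  to `x` which makes both graphs connected with diameter at most `9`, for all large `n`.
-/

set_option autoImplicit false

namespace Pool.Agent.Results.MP_443e5f_co.SparsePerturbation

/-- the even numbers from `v` to `2 n` -/
abbrev Vertices (v n : ℕ) := {a : ℕ // Even a ∧ v ≤ a ∧ a ≤ 2 * n}

/-- `m` is an odd prime smaller than `2 n` -/
def OddPrimeBelow (n m : ℕ) : Prop := m.Prime ∧ Odd m ∧ m < 2 * n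

/-- The graph on the even numbers from `v` to `2 n` in which `a ≠ b` are adjacent if `(a + b) / 2` is an odd prime
`< 2 n` or an element of `S`, and `|a - b| / 2` is an odd prime `< 2 n` or an element of `D`. For `v = 0` and
`S = D = ∅` it is `G_n`, for `v = 2` and `S = D = {1}` it is `G(n)`. -/
def graph (v n : ℕ) (S D : Set ℕ) : SimpleGraph (Vertices v n) where
  Adj a b := a ≠ b ∧ (OddPrimeBelow n ((a.1 + b.1) / 2) ∨ (a.1 + b.1) / 2 ∈ S) ∧
    (OddPrimeBelow n (Nat.dist a.1 b.1 / 2) ∨ Nat.dist a.1 b.1 / 2 ∈ D)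
  symm := ⟨by
    rintro a b ⟨h1, h2, h3⟩
    refine ⟨h1.symm, ?_, ?_⟩
    · rw [add_comm]; exact h2
    · rw [Nat.dist_comm]; exact h3⟩
  loopless := ⟨fun _ h => h.1 rfl⟩

/-- The structure of the large components of the graphs `graph v n S D` for `n → ∞`: a fixed finite set `F` of
vertices in pairwise different components, each of these with at least `c n` vertices, such that almost all
vertices are within distance `C log n` of an element of `F`. -/
def Rooted (c : ℝ) (v : ℕ) (S D : Set ℕ) : Prop :=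
  ∃ F : Finset ℕ, F.Nonempty ∧
    (∀ n : ℕ, ∀ a b : Vertices v n, a.1 ∈ F → b.1 ∈ F → a ≠ b → ¬ (graph v n S D).Reachable a b) ∧
    (∃ N : ℕ, ∀ n : ℕ, N ≤ n → ∀ f ∈ F, ∃ a : Vertices v n, a.1 = f ∧
      c * n ≤ ({b | (graph v n S D).Reachable a b}.ncard : ℝ)) ∧
    ∃ C : ℝ, ∀ A : ℕ, ∃ N : ℕ, ∀ n : ℕ, N ≤ n → ∃ E : Finset (Vertices v n), (E.card : ℝ) ≤ n / Real.log n ^ A ∧
      ∀ a, a ∉ E → ∃ b : Vertices v n, b.1 ∈ F ∧ (graph v n S D).edist a b ≤ ⌊C * Real.log n⌋₊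

/-- outside a set of at most `e` vertices all distances are at most `d` -/
def AlmostAll {V : Type} (G : SimpleGraph V) (e : ℝ) (d : ℕ∞) : Prop :=
  ∃ E : Finset V, (E.card : ℝ) ≤ e ∧ ∀ a, a ∉ E → ∀ b, b ∉ E → G.edist a b ≤ d

/-- when `|a - b| / 2` may also be in `D₀`, both graphs are connected, of (extended) diameter at most `9` -/
def Bounded (n : ℕ) (D₀ : Set ℕ) : Prop :=
  ∀ v : ℕ, v = 0 ∨ v = 2 → ∀ S D : Set ℕ, D₀ ⊆ D → (graph v n S D).ediam ≤ 9

/-- the odd numbers `2 r + 1` for the entries `r` of the list -/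
def odds {n k : ℕ} (r : Fin k → Fin n) : Set ℕ := {m | ∃ i, m = 2 * (r i : ℕ) + 1}

open Finset Pool.Agent.Q107.GR
open Pool.Agent.Q143.GG (R)

/-- the graph on the halves of the vertices -/
def half (v : ℕ) (S D : Set ℕ) (n : ℕ) : SimpleGraph ℕ where
  Adj x y := ((v ≤ 2 * x ∧ x ≤ n) ∧ (v ≤ 2 * y ∧ y ≤ n)) ∧ x ≠ y ∧ (OddPrimeBelow n (x + y) ∨ x + y ∈ S) ∧
    (OddPrimeBelow n (Nat.dist x y) ∨ Nat.dist x y ∈ D)
  symm := ⟨by
    rintro a b ⟨h0, h1, h2, h3⟩
    refine ⟨h0.symm, h1.symm, ?_, ?_⟩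
    · rw [add_comm]; exact h2
    · rw [Nat.dist_comm]; exact h3⟩
  loopless := ⟨fun _ h => h.2.1 rfl⟩

lemma half_mono (v : ℕ) (S D : Set ℕ) (m n : ℕ) (h : m ≤ n) : half v S D m ≤ half v S D n := by
  have h1 : ∀ k, OddPrimeBelow m k → OddPrimeBelow n k := fun k hk => ⟨hk.1, hk.2.1, by have := hk.2.2; omega⟩
  rintro x y ⟨h0, h2, h3, h4⟩
  exact ⟨⟨⟨h0.1.1, by omega⟩, ⟨h0.2.1, by omega⟩⟩, h2, h3.imp (h1 _) id, h4.imp (h1 _) id⟩

lemma edge {n : ℕ} {T D : Set ℕ} (hTD : ∀ t ∈ T, 2 * t + 1 ∈ D) {x y : ℕ} (hx : x ∈ Icc 1 n) (hy : y ∈ Icc 1 n)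
    (h : Ed T x y) : x ≠ y ∧ OddPrimeBelow n (x + y) ∧ (OddPrimeBelow n (Nat.dist x y) ∨ Nat.dist x y ∈ D) := by
  rw [mem_Icc] at hx hy
  have hne : x ≠ y := Ed_ne h
  have hs : (x + y).Prime := by
    rcases h with ⟨h, _⟩ | ⟨h, _⟩
    · exact h
    · exact h
  have hodd : (x + y) % 2 = 1 := hs.eq_two_or_odd.resolve_left (by omega)
  refine ⟨hne, ⟨hs, Nat.odd_iff.2 hodd, by omega⟩, ?_⟩
  rcases h with ⟨_, h⟩ | ⟨_, j, hj, h⟩
  · left
    refine ⟨h, ?_, ?_⟩
    · rw [Nat.odd_iff]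
      unfold Nat.dist
      omega
    · unfold Nat.dist
      omega
  · right
    rw [h]
    exact hTD j hj

lemma half_edge {v n : ℕ} (hv : v = 0 ∨ v = 2) {S T D : Set ℕ} (hTD : ∀ t ∈ T, 2 * t + 1 ∈ D) :
    ∀ x ∈ Icc 1 n, ∀ y ∈ Icc 1 n, Ed T x y → (half v S D n).Adj x y := by
  intro x hx y hy h
  obtain ⟨h1, h2, h3⟩ := edge hTD hx hy h
  rw [mem_Icc] at hx hy
  exact ⟨⟨⟨by omega, hx.2⟩, ⟨by omega, hy.2⟩⟩, h1, Or.inl h2, h3⟩

/-- the vertex `2 x` -/
def dbl (v n : ℕ) (hv : v ≤ 2 * n) (x : ℕ) : Vertices v n :=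
  if h : v ≤ 2 * x ∧ x ≤ n then ⟨2 * x, even_two_mul _, h.1, by omega⟩ else ⟨2 * n, even_two_mul _, hv, le_rfl⟩

lemma dbl_val {v n : ℕ} (hv : v ≤ 2 * n) {x : ℕ} (h : v ≤ 2 * x ∧ x ≤ n) : (dbl v n hv x).1 = 2 * x := by
  unfold dbl
  rw [dif_pos h]

lemma dbl_half {v n : ℕ} (hv : v ≤ 2 * n) (a : Vertices v n) : dbl v n hv (a.1 / 2) = a := by
  obtain ⟨a, ⟨b, hb⟩, h1, h2⟩ := a
  apply Subtype.ext
  rw [dbl_val hv (by simp only; omega)]
  simp only
  omega

lemma dbl_hom {v n : ℕ} (hv : v ≤ 2 * n) {S D : Set ℕ} (x y : ℕ) (h : (half v S D n).Adj x y) :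
    (graph v n S D).Adj (dbl v n hv x) (dbl v n hv y) := by
  obtain ⟨⟨h1, h2⟩, h3, h4, h5⟩ := h
  have e1 : (2 * x + 2 * y) / 2 = x + y := by omega
  have e2 : Nat.dist (2 * x) (2 * y) / 2 = Nat.dist x y := by unfold Nat.dist; omega
  refine ⟨fun h => ?_, ?_, ?_⟩
  · have := congrArg Subtype.val h
    rw [dbl_val hv h1, dbl_val hv h2] at this
    omega
  · rw [dbl_val hv h1, dbl_val hv h2, e1]
    exact h4
  · rw [dbl_val hv h1, dbl_val hv h2, e2]
    exact h5

lemma half_hom {v n : ℕ} {S D : Set ℕ} (a b : Vertices v n) (h : (graph v n S D).Adj a b) :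
    (half v S D n).Adj (a.1 / 2) (b.1 / 2) := by
  obtain ⟨a, ⟨a', ha⟩, ha1, ha2⟩ := a
  obtain ⟨b, ⟨b', hb⟩, hb1, hb2⟩ := b
  obtain ⟨h1, h2, h3⟩ := h
  simp only at h2 h3 ⊢
  have e1 : a / 2 + b / 2 = (a + b) / 2 := by omega
  have e2 : Nat.dist (a / 2) (b / 2) = Nat.dist a b / 2 := by unfold Nat.dist; omega
  refine ⟨⟨⟨by omega, by omega⟩, ⟨by omega, by omega⟩⟩, fun h => h1 ?_, ?_, ?_⟩
  · apply Subtype.ext
    simp only
    omega
  · rw [e1]; exact h2
  · rw [e2]; exact h3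

lemma edist_dbl {v n : ℕ} (hv : v ≤ 2 * n) {S D : Set ℕ} {a b : Vertices v n} {k : ℕ∞}
    (h : (half v S D n).edist (a.1 / 2) (b.1 / 2) ≤ k) : (graph v n S D).edist a b ≤ k := by
  have := hom_edist (G := half v S D n) (G' := graph v n S D) (dbl v n hv) (dbl_hom hv) (a.1 / 2) (b.1 / 2)
  rw [dbl_half, dbl_half] at this
  exact this.trans h

/-- the exceptional sets of vertices -/
lemma exc (v n : ℕ) (hvn : v ≤ 2 * n) (E : Finset ℕ) : ∃ E' : Finset (Vertices v n),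
    E'.card ≤ E.card + 1 ∧ ∀ a, a ∉ E' → a.1 / 2 ∈ Icc 1 n ∧ a.1 / 2 ∉ E := by
  classical
  refine ⟨insert (dbl v n hvn 0) (E.image (dbl v n hvn)), (card_insert_le _ _).trans
    (Nat.add_le_add_right card_image_le 1), fun a ha => ?_⟩
  rw [mem_insert, not_or] at ha
  have ha0 : a.1 / 2 ≠ 0 := by
    intro h
    apply ha.1
    rw [← h, dbl_half]
  refine ⟨?_, fun h => ha.2 ?_⟩
  · have := a.2.2.2
    rw [mem_Icc]
    omega
  · rw [← dbl_half hvn a]
    exact mem_image_of_mem _ h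

lemma room (A : ℕ) : ∃ N : ℕ, ∀ n : ℕ, N ≤ n → (n : ℝ) / Real.log n ^ (A + 1) + 1 ≤ n / Real.log n ^ A := by
  obtain ⟨N1, h1⟩ := Pool.Agent.H373R2.T7.ev_L' 2
  obtain ⟨N2, h2⟩ := Pool.Agent.H373R2.T7.ev_log' A 2
  refine ⟨N1 + N2 + 3, fun n hn => ?_⟩
  have hL := h1 n (by omega)
  have hn1 : (1 : ℝ) ≤ n := by exact_mod_cast (by omega : 1 ≤ n)
  have hn0 : (0 : ℝ) < n := by linarith
  have hs := h2 n (by omega)
  set L := Real.log (n : ℝ)
  have hL0 : 0 < L := by linarith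
  have hLA : 0 < L ^ A := by positivity
  have hsq : √(n : ℝ) ≤ n := by
    rw [Real.sqrt_le_left hn0.le]
    nlinarith
  have a1 : (n : ℝ) / L ^ (A + 1) ≤ n / L ^ A / 2 := by
    rw [div_div]
    apply div_le_div_of_nonneg_left hn0.le (by positivity)
    rw [pow_succ]
    exact mul_le_mul_of_nonneg_left hL hLA.le
  have a2 : 1 ≤ (n : ℝ) / L ^ A / 2 := by
    rw [div_div, one_le_div (by positivity)]
    linarith
  linarith

lemma rooted_graph (q : ℕ) (hq : 2 ≤ q) (v : ℕ) (hv : v = 0 ∨ v = 2) (S D : Set ℕ)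
    (h : ∃ F : Finset ℕ, F.Nonempty ∧ (∀ u ∈ F, 1 ≤ u) ∧
      (∀ n, ∀ u ∈ F, ∀ w ∈ F, u ≠ w → ¬ (half v S D n).Reachable u w) ∧
      (∃ N' : ℕ, ∀ n, N' ≤ n → ∀ u ∈ F, u ≤ n ∧ ∃ X ⊆ Icc 1 n, 4 * n ≤ q * X.card ∧
        ∀ x ∈ X, (half v S D n).Reachable u x) ∧
      ∃ C : ℝ, ∀ A : ℕ, ∃ N' : ℕ, ∀ n, N' ≤ n → ∃ E ⊆ Icc 1 n, (E.card : ℝ) ≤ n / Real.log n ^ A ∧
        ∀ x ∈ Icc 1 n, x ∉ E → ∃ u ∈ F, ∃ k : ℕ, (half v S D n).edist x u ≤ k ∧ (k : ℝ) ≤ C * Real.log n) :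
    Rooted (4 / q) v S D := by
  classical
  obtain ⟨F, hFne, hF1, hdis, ⟨N1, hbig⟩, C, hC⟩ := h
  have hq0 : (0 : ℝ) < q := by exact_mod_cast (by omega : 0 < q)
  refine ⟨F.image (fun u => 2 * u), hFne.image _, ?_, ⟨N1 + 1, ?_⟩, C, ?_⟩
  · intro n a b ha hb hab hr
    rw [mem_image] at ha hb
    obtain ⟨u, hu, hua⟩ := ha
    obtain ⟨w, hw, hwb⟩ := hb
    have e1 : a.1 / 2 = u := by omega
    have e2 : b.1 / 2 = w := by omega
    have hne : u ≠ w := by
      rintro rfl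
      exact hab (Subtype.ext (by omega))
    apply hdis n u hu w hw hne
    rw [← e1, ← e2]
    exact hr.map (⟨fun a => a.1 / 2, fun {a b} h => half_hom a b h⟩ : graph v n S D →g half v S D n)
  · intro n hn f hf
    rw [mem_image] at hf
    obtain ⟨u, hu, rfl⟩ := hf
    obtain ⟨hun, X, hX, hXc, hXr⟩ := hbig n (by omega) u hu
    have hu1 := hF1 u hu
    have hvn : v ≤ 2 * n := by omega
    have hval : (dbl v n hvn u).1 = 2 * u := dbl_val hvn ⟨by omega, hun⟩
    refine ⟨dbl v n hvn u, hval, ?_⟩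
    have h1 : X.card ≤ {b | (graph v n S D).Reachable (dbl v n hvn u) b}.ncard := by
      have hinj : Set.InjOn (dbl v n hvn) X := by
        intro x hx y hy hxy
        have hx1 := mem_Icc.1 (hX hx)
        have hy1 := mem_Icc.1 (hX hy)
        have := congrArg Subtype.val hxy
        rw [dbl_val hvn ⟨by omega, hx1.2⟩, dbl_val hvn ⟨by omega, hy1.2⟩] at this
        omega
      rw [← Set.ncard_coe_finset, ← hinj.ncard_image]
      have hfin : Finite (Vertices v n) := by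
        apply Set.Finite.subset (Set.finite_Iic (2 * n))
        rintro a ⟨_, _, h⟩
        exact h
      apply Set.ncard_le_ncard _ (Set.toFinite _)
      rintro _ ⟨x, hx, rfl⟩
      exact (hXr x hx).map (⟨dbl v n hvn, fun {a b} h => dbl_hom hvn a b h⟩ : half v S D n →g graph v n S D)
    have h2 : (4 : ℝ) * n ≤ q * X.card := by exact_mod_cast hXc
    have h3 : (X.card : ℝ) ≤ ({b | (graph v n S D).Reachable (dbl v n hvn u) b}.ncard : ℝ) := by exact_mod_cast h1
    rw [div_mul_eq_mul_div, div_le_iff₀ hq0]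
    nlinarith
  · intro A
    obtain ⟨N2, h2⟩ := hC (A + 1)
    obtain ⟨N3, h3⟩ := room A
    obtain ⟨N4, h4⟩ : ∃ N4 : ℕ, ∀ u ∈ F, u ≤ N4 := ⟨F.sup id, fun u hu => le_sup (f := id) hu⟩
    refine ⟨N2 + N3 + N4 + 1, fun n hn => ?_⟩
    obtain ⟨E, hE, hEc, hEp⟩ := h2 n (by omega)
    obtain ⟨E', hE'c, hE'⟩ := exc v n (by omega) E
    refine ⟨E', ?_, fun a ha => ?_⟩
    · have h5 : (E'.card : ℝ) ≤ E.card + 1 := by exact_mod_cast hE'c
      have h6 := h3 n (by omega)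
      linarith
    · obtain ⟨ha1, ha2⟩ := hE' a ha
      obtain ⟨u, hu, k, hk, hkl⟩ := hEp _ ha1 ha2
      have hu1 := hF1 u hu
      have hu2 := h4 u hu
      have hvn : v ≤ 2 * n := by omega
      have hval : (dbl v n hvn u).1 = 2 * u := dbl_val hvn ⟨by omega, by omega⟩
      refine ⟨dbl v n hvn u, by rw [hval]; exact mem_image_of_mem (fun u => 2 * u) hu, edist_dbl hvn ?_⟩
      have e : (dbl v n hvn u).1 / 2 = u := by omega
      rw [e]
      refine hk.trans ?_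
      exact_mod_cast Nat.le_floor hkl

lemma bounded_of_good {n : ℕ} (hn : 1 ≤ n) {T D₀ : Set ℕ} (hTD : ∀ t ∈ T, 2 * t + 1 ∈ D₀) (hT : Good n T) : Bounded n D₀ := by
  classical
  intro v hv S D hD
  have hvn : v ≤ 2 * n := by omega
  refine SimpleGraph.ediam_le_of_edist_le (hT _ (graph v n S D) (dbl v n hvn) ?_ ?_)
  · intro x hx y hy h
    exact dbl_hom hvn x y (half_edge hv (fun t ht => hD (hTD t ht)) x hx y hy h)
  · intro a
    by_cases ha : a.1 / 2 = 0
    · right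
      intro p hp hp2 hpn
      rw [← dbl_half hvn a, ha]
      apply dbl_hom
      have hodd : Odd p := hp.odd_of_ne_two hp2
      have h2 := hp.two_le
      have h3 := a.2.2.1
      have e1 : 0 + p = p := by omega
      have e2 : Nat.dist 0 p = p := by unfold Nat.dist; omega
      have e3 : v ≤ 2 * 0 := by omega
      refine ⟨⟨⟨e3, by omega⟩, ⟨by omega, hpn⟩⟩, by omega, Or.inl ?_, Or.inl ?_⟩
      · rw [e1]
        exact ⟨hp, hodd, by omega⟩
      · rw [e2]
        exact ⟨hp, hodd, by omega⟩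
    · left
      have := a.2.2.2
      exact ⟨a.1 / 2, mem_Icc.2 ⟨by omega, by omega⟩, dbl_half hvn a⟩

lemma almost (v n : ℕ) (hv : v = 0 ∨ v = 2) (hn : 1 ≤ n) (S D : Set ℕ) (E : Finset ℕ) (e : ℝ) (d : ℕ∞)
    (hE : (E.card : ℝ) + 1 ≤ e)
    (h : ∀ x ∈ Icc 1 n, x ∉ E → ∀ y ∈ Icc 1 n, y ∉ E → (half v S D n).edist x y ≤ d) : AlmostAll (graph v n S D) e d := by
  obtain ⟨E', hE'c, hE'⟩ := exc v n (by omega) E
  refine ⟨E', ?_, fun a ha b hb => ?_⟩
  · have h5 : (E'.card : ℝ) ≤ E.card + 1 := by exact_mod_cast hE'c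
    linarith
  · exact edist_dbl (by omega) (h _ (hE' a ha).1 (hE' a ha).2 _ (hE' b hb).1 (hE' b hb).2)

lemma count_odds {T : Set ℕ} {x : ℕ} : ({d | ∃ t ∈ T, d = 2 * t + 1} ∩ Set.Icc 1 x).ncard ≤ (T ∩ Set.Iic x).ncard := by
  have hfin : (T ∩ Set.Iic x).Finite := (Set.finite_Iic x).inter_of_right T
  have h1 : ({d | ∃ t ∈ T, d = 2 * t + 1} ∩ Set.Icc 1 x) ⊆ (fun t => 2 * t + 1) '' (T ∩ Set.Iic x) := by
    rintro d ⟨⟨t, ht, rfl⟩, hd⟩
    rw [Set.mem_Icc] at hd
    exact ⟨t, ⟨ht, by rw [Set.mem_Iic]; omega⟩, rfl⟩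
  exact (Set.ncard_le_ncard h1 (hfin.image _)).trans (Set.ncard_image_le hfin)

open Classical in
/-- The large components of the Goldbach graphs, and the effect of a few additional differences. -/
theorem result :
    -- the roots of the large components, in particular for `G_n` and `G(n)`
    (∃ c : ℝ, 0 < c ∧ ∀ v : ℕ, v = 0 ∨ v = 2 → ∀ S D : Set ℕ, Rooted c v S D) ∧
    -- boundedly many additional differences
    (∃ B : ℕ, ∃ C : ℝ, ∀ A : ℕ, ∃ N : ℕ, ∀ n : ℕ, N ≤ n → ∀ v : ℕ, v = 0 ∨ v = 2 → ∀ S D : Set ℕ,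
      (∀ d, Odd d → d ≤ B → d ∈ D) → AlmostAll (graph v n S D) (n / Real.log n ^ A) ⌊C * Real.log n⌋₊) ∧
    -- logarithmically many additional differences
    (∃ C : ℝ, ∃ D₀ : Set ℕ, (∀ d ∈ D₀, Odd d) ∧
      (∀ x : ℕ, 2 ≤ x → ((D₀ ∩ Set.Icc 1 x).ncard : ℝ) ≤ C * Real.log x) ∧
      ∀ A : ℕ, ∃ N : ℕ, ∀ n : ℕ, N ≤ n → ∀ v : ℕ, v = 0 ∨ v = 2 → ∀ S D : Set ℕ, D₀ ⊆ D →
        AlmostAll (graph v n S D) (n / Real.log n ^ A) 19) ∧
    -- random additional differences
    (∃ K : ℝ, ∀ B : ℕ, ∃ N : ℕ, ∀ n : ℕ, N ≤ n → ∀ k : ℕ, K * (B + 1) * Real.log n ^ 2 ≤ k →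
      ((univ.filter (fun r : Fin k → Fin n => ¬ Bounded n (odds r))).card : ℝ) ≤ (n : ℝ) ^ k / (n : ℝ) ^ B) ∧
    -- a fixed set of additional differences
    (∃ C : ℝ, ∃ D₀ : Set ℕ, (∀ d ∈ D₀, Odd d) ∧
      (∀ x : ℕ, 2 ≤ x → ((D₀ ∩ Set.Icc 1 x).ncard : ℝ) ≤ C * Real.log x ^ 3) ∧
      ∃ N : ℕ, ∀ n : ℕ, N ≤ n → Bounded n D₀) := by
  refine ⟨?_, ?_, ?_, ?_, ?_⟩
  · obtain ⟨q, hq, h⟩ := rooted_main
    have hq0 : (0 : ℝ) < q := by exact_mod_cast (by omega : 0 < q)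
    refine ⟨4 / q, by positivity, fun v hv S D => rooted_graph q hq v hv S D (h (half v S D) (half_mono v S D) ?_)⟩
    intro n x hx y hy hR
    exact half_edge (T := ∅) hv (by simp) x hx y hy (Or.inl hR)
  · obtain ⟨B, C, h⟩ := small_diffs
    refine ⟨B, C, fun A => ?_⟩
    obtain ⟨N1, h1⟩ := h (A + 1)
    obtain ⟨N2, h2⟩ := room A
    refine ⟨N1 + N2 + 1, fun n hn v hv S D hD => ?_⟩
    obtain ⟨E, _, hEc, hEp⟩ := h1 n (by omega)
    have h3 := h2 n (by omega)
    refine almost v n hv (by omega) S D E _ _ (by linarith) (fun x hx hxE y hy hyE => ?_)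
    obtain ⟨k, hk, hkl⟩ := hEp x hx hxE y hy hyE
    refine (mono_edist (HT_le (half_edge hv ?_)) hk).trans ?_
    · intro t ht
      exact hD _ (odd_two_mul_add_one t) ht
    · exact_mod_cast Nat.le_floor hkl
  · obtain ⟨C, _, T, hTc, h⟩ := part3
    refine ⟨C, {d | ∃ t ∈ T, d = 2 * t + 1}, ?_, ?_, fun A => ?_⟩
    · rintro d ⟨t, _, rfl⟩
      exact odd_two_mul_add_one t
    · intro x hx
      exact le_trans (by exact_mod_cast count_odds) (hTc x hx)
    · obtain ⟨N1, h1⟩ := h (A + 1)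
      obtain ⟨N2, h2⟩ := room A
      refine ⟨N1 + N2 + 1, fun n hn v hv S D hD => ?_⟩
      obtain ⟨E, _, hEc, hEp⟩ := h1 n (by omega)
      have h3 := h2 n (by omega)
      exact almost v n hv (by omega) S D E _ _ (by linarith)
        (hEp (half v S D n) (half_edge hv (fun t ht => hD ⟨t, ht, rfl⟩)))
  · obtain ⟨K, _, h⟩ := part1
    refine ⟨K, fun B => ?_⟩
    obtain ⟨N, hN⟩ := h B
    refine ⟨N + 1, fun n hn k hk => ?_⟩
    refine le_trans ?_ (hN n (by omega) k hk)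
    have : (univ.filter (fun r : Fin k → Fin n => ¬ Bounded n (odds r))).card ≤
        (univ.filter (fun r : Fin k → Fin n => ¬ Good n {j | ∃ i, (r i : ℕ) = j})).card := by
      apply card_le_card
      intro r hr
      rw [mem_filter] at hr ⊢
      refine ⟨mem_univ _, fun hg => hr.2 (bounded_of_good (by omega) ?_ hg)⟩
      rintro t ⟨i, rfl⟩
      exact ⟨i, rfl⟩
    exact_mod_cast this
  · obtain ⟨C, _, T, hTc, N, hN⟩ := part2
    refine ⟨C, {d | ∃ t ∈ T, d = 2 * t + 1}, ?_, ?_, N + 1, fun n hn => ?_⟩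
    · rintro d ⟨t, _, rfl⟩
      exact odd_two_mul_add_one t
    · intro x hx
      exact le_trans (by exact_mod_cast count_odds) (hTc x hx)
    · exact bounded_of_good (by omega) (fun t ht => ⟨t, ht, rfl⟩) (hN n (by omega))

end Pool.Agent.Results.MP_443e5f_co.SparsePerturbation
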